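import Mathlib
import Pool.Agent.Y636.CL.Defs
import Pool.Agent.K9h49.MI.Sep

/-!
# Learning monotone DNF formulas from a few bits of every example needs interaction

`N` parties hold one uniform random labelled example each and write at most `m` bits each on a
common blackboard. For arbitrary DNF formulas with `s` gates the number of examples which is needed
is `(n / m) ^ Θ(log s)`, with or without interaction (`MessageBits`). We show that for monotone, and
more generally unate, DNF formulas the situation is completely different.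

* With two rounds of messages `poly (n, s, 1 / ε, log (1 / δ))` examples are enough, even if every
  party writes only `O(s * log (s / ε))` bits.
* Without interaction monotone formulas are as hard as arbitrary ones: `(n / m) ^ Ω(log s)`
  examples are necessary, even with common randomness.
-/

namespace Pool.Agent.Results.MP_cba12a_lc.MonotoneInteraction

open Pool.Agent.W964.Wd Pool.Agent.Y636.CL Pool.Agent.K9h49.MI

/-- 1. Upper bound. If `64 s ^ 2 l ≤ ε * 2 ^ l`, `s * l ≤ b` and `N` is at least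
`(⌊n / b⌋ + 1) * (2 ^ 15 * s ^ 2 * l ^ 2 / ε ^ 2 * (l * s * log (2 n + 2) + log (4 / δ)) + 1)`, there
is one deterministic protocol with `N` examples and two rounds, `b + 1` bits per example in the first
and `b` bits per example in the second, which outputs for every unate function computed by a DNF
formula with at most `s` gates a hypothesis of error at most `ε` with probability at least `1 - δ`.

2. Lower bound. If `2 ≤ B` and `κ * B ≤ n`, every randomized protocol without interaction with `N`
examples and `m ≥ κ` bits per example outputs, for some monotone function computed by a DNF formula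
with at most `2 ^ κ + 1` gates, a hypothesis of error at most `η < 2 ^ (-κ - 1)` with probability at
most `1 / 2 + N * √((4 m / (κ B)) ^ κ)`.

3. The separation. Let `n = 2 ^ (8 κ)` with `κ ≥ 3`. The unate functions with DNF formulas with at
most `2 ^ κ + 1` gates are learned with error `2 ^ (-κ - 2)` and confidence `1 - 2 ^ (-κ - 2)` by a
protocol with two rounds and at most `√n` bits per example, from any number `N ≥ n ^ (13 / 4)` of
examples. No randomized protocol without interaction with `√n` bits per example and at most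
`2 ^ (κ ^ 2) = n ^ (log₂ n / 64)` examples learns the monotone ones among them with this error and
confidence more than `3 / 4`. -/
theorem result :
    (∀ (n N s l b : ℕ) (ε δ : ℝ), 1 ≤ s → 1 ≤ l → 0 < ε → 0 < δ → δ ≤ 1 →
      64 * (s : ℝ) ^ 2 * l ≤ ε * 2 ^ l → s * l ≤ b →
      ((n / b + 1 : ℕ) : ℝ) * (2 ^ 15 * s ^ 2 * l ^ 2 / ε ^ 2 *
        (l * s * Real.log (2 * n + 2) + Real.log (4 / δ)) + 1) ≤ N →
      ∃ π : Prot N (Ex n) (Hy n), (∀ j, π.load j ≤ 2 * b + 1) ∧ TwoRounds (b + 1) b π ∧
        ∀ f : Hy n, IsDnf s f → UnateF f → 1 - δ ≤ learnProb π.run f ε) ∧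
    (∀ (n N κ B m : ℕ), 1 ≤ κ → κ ≤ m → 2 ≤ B → κ * B ≤ n → ∀ η : ℝ, η < 1 / 2 ^ (κ + 1) →
      ∀ (R : Type) [Fintype R] [Nonempty R] (π : R → Prot N (Ex n) (Hy n)),
        (∀ r, (π r).Silent m) →
        ∃ f : Hy n, Monotone f ∧ IsDnf (2 ^ κ + 1) f ∧
          learnProbR (fun r => (π r).run) f η ≤
            1 / 2 + N * Real.sqrt ((4 * m / (κ * B)) ^ κ)) ∧
    (∀ κ : ℕ, 3 ≤ κ →
      (∀ N : ℕ, 2 ^ (26 * κ) ≤ N →
        ∃ π : Prot N (Ex (2 ^ (8 * κ))) (Hy (2 ^ (8 * κ))), (∀ j, π.load j ≤ 2 ^ (4 * κ)) ∧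
          (∃ m m' : ℕ, m + m' ≤ 2 ^ (4 * κ) ∧ TwoRounds m m' π) ∧
          ∀ f : Hy (2 ^ (8 * κ)), IsDnf (2 ^ κ + 1) f → UnateF f →
            1 - 1 / 2 ^ (κ + 2) ≤ learnProb π.run f (1 / 2 ^ (κ + 2))) ∧
      (∀ N : ℕ, N ≤ 2 ^ (κ ^ 2) →
        ∀ (R : Type) [Fintype R] [Nonempty R]
          (π : R → Prot N (Ex (2 ^ (8 * κ))) (Hy (2 ^ (8 * κ)))),
          (∀ r, (π r).Silent (2 ^ (4 * κ))) →
          ∃ f : Hy (2 ^ (8 * κ)), Monotone f ∧ IsDnf (2 ^ κ + 1) f ∧
            learnProbR (fun r => (π r).run) f (1 / 2 ^ (κ + 2)) ≤ 3 / 4)) :=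
  ⟨fun _ _ _ _ _ _ _ h1 h2 h3 h4 h5 h6 h7 h8 => up_main h1 h2 h3 h4 h6 h7 h8 h5,
    fun _ _ _ _ _ h1 h2 h3 h4 _ h5 _ _ _ π h6 => low_main h1 h2 h3 h4 π h6 h5,
    fun _ hκ => ⟨fun _ hN => sep_up hκ hN, fun _ hN _ _ _ π hs => sep_low hκ hN π hs⟩⟩

end Pool.Agent.Results.MP_cba12a_lc.MonotoneInteraction
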