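import Pool.Agent.K9h49.NW.Fin

/-!
# Learning unate DNF formulas of small width from uniform random examples

Unate (for instance monotone) DNF formulas over `n` variables whose terms have at most `w` literals,
with any number of terms, are learnable to accuracy `ε` and confidence `1 - δ` from
`poly(1/ε) * (2 ^ w * log (1/ε)) ^ O(w) * log (n / δ)` uniform random examples, by an algorithm whose
running time is polynomial in the size of the examples. This is polynomial in `n`, `1/ε`, `1/δ` if
`w` is at most `O(√(log n))`.

The learner `A` is a polynomial-time computable function of `w`, `a = 1/ε` and the examples. It uses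
only the negative examples: starting with the empty term, it adds to a candidate every literal which
is noticeably more often false than true on the negative examples that satisfy the candidate, until
few negative examples satisfy it.
-/

namespace Pool.Agent.Results.MP_cba12a_lc.MonotoneWidth

open Pool.Agent.Helper91K9.DL Pool.Agent.H424R2.PPAD Pool.Agent.K9h49.DN

theorem result :
    ∃ A : (ℕ × ℕ) × List (List Bool × Bool) → List (List (ℕ × Bool)), PTime A ∧
      ∃ e : ℕ, ∀ (n w a b : ℕ) (F : List (List (ℕ × Bool))), 1 ≤ a → 1 ≤ b →
        (∀ t ∈ F, t.length ≤ w) → (∀ t ∈ F, ∀ l ∈ t, l.1 < n) → Unate F →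
        ∀ m : ℕ, (a + 1) ^ e * (2 ^ w * (Nat.log 2 a + 2)) ^ (e * w) *
            (Nat.log 2 (n + b) + 1) ≤ m →
          Succeeds (fun S => A ((w, a), S)) n m F (1 / a) (1 / b) :=
  Pool.Agent.K9h49.NW.mainN

end Pool.Agent.Results.MP_cba12a_lc.MonotoneWidth
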