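import Pool.Agent.K9h49.DN.MainB

/-!
# Learning unate DNF formulas with `s` terms from uniform random examples

Unate (for instance monotone) DNF formulas with at most `s` terms over `n` variables are learnable
to accuracy `ε` and confidence `1 - δ` from `poly(n, s, 1/ε, 1/δ)` uniform random examples in time
`s ^ O(log s) * poly(n, s, 1/ε, 1/δ)`; this is polynomial if `s` is at most `2 ^ O(√(log n))`.

The learner `A` is a polynomial-time computable function of its input, which consists of `s`,
`a = 1/ε`, a padding string and the examples; the padding only pays for the running time, it may be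
any string of length at least `(n + s + a + 1) ^ e * s ^ (e * log₂ s)`.
-/

namespace Pool.Agent.Results.MP_cba12a_lc.UnateFewTerms

open Pool.Agent.Helper91K9.DL Pool.Agent.H424R2.PPAD Pool.Agent.K9h49.DN

theorem result :
    ∃ A : (ℕ × ℕ × List Bool) × List (List Bool × Bool) → List (List (ℕ × Bool)), PTime A ∧
      ∃ e : ℕ, ∀ (n s a b : ℕ) (F : List (List (ℕ × Bool))), 1 ≤ a → 1 ≤ b →
        F.length ≤ s → (∀ t ∈ F, ∀ l ∈ t, l.1 < n) → Unate F →
        ∀ (m : ℕ) (pad : List Bool), (n + s + a + b) ^ e ≤ m →
          (n + s + a + 1) ^ e * s ^ (e * Nat.log 2 s) ≤ pad.length →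
          Succeeds (fun S => A ((s, a, pad), S)) n m F (1 / a) (1 / b) :=
  Pool.Agent.K9h49.DN.mainB

end Pool.Agent.Results.MP_cba12a_lc.UnateFewTerms
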